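import Pool.Agent.Helper82_NIB.Stmts

/-!
Squad NIB (MP_0a041d_co), module BCNT: the new number of holes.
-/

set_option autoImplicit false
set_option linter.unusedSectionVars false

open Finset Matrix

namespace Pool.Agent.NIB.H3

lemma sum01 {V : Type} [Fintype V] {f : V → ℝ} (h : ∀ v, f v = 0 ∨ f v = 1) (hs : ∑ v, f v ≤ 1) :
    ∑ v, f v = 0 ∨ (∑ v, f v = 1 ∧ ∃ v, f v = 1) := by
  by_cases hv : ∃ v, f v = 1
  · obtain ⟨v, hv⟩ := hv
    refine Or.inr ⟨le_antisymm hs ?_, v, hv⟩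
    rw [← hv]
    refine Finset.single_le_sum (f := f) (fun i _ => ?_) (Finset.mem_univ v)
    rcases h i with h1 | h1 <;> rw [h1]; norm_num
  · left
    push Not at hv
    exact Finset.sum_eq_zero fun v _ => (h v).resolve_right (hv v)

lemma rs01 {V C : Type} [Fintype V] {E : V → V → Prop} {S : St V C} {de r h : ℝ}
    (hS : S.Good E de r h) {c : C} {sg : V → V → ℝ} (h01 : ∀ u v, sg u v = 0 ∨ sg u v = 1)
    (hx : ∀ u v, sg u v = 1 → S.x c u v ≠ 0) (hr : ∀ w, rs sg w ≤ 1) (w : V × Bool) :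
    rs sg w = 0 ∨ (rs sg w = 1 ∧ S.hole c w) := by
  rcases w with ⟨w, _ | _⟩
  · have h1 := hr (w, false)
    rw [rs_inn] at h1 ⊢
    rcases sum01 (fun u => h01 u w) h1 with h2 | ⟨h2, u, hu⟩
    · exact Or.inl h2
    · exact Or.inr ⟨h2, hS.xinn c u w (hx u w hu)⟩
  · have h1 := hr (w, true)
    rw [rs_out] at h1 ⊢
    rcases sum01 (fun v => h01 w v) h1 with h2 | ⟨h2, v, hv⟩
    · exact Or.inl h2
    · exact Or.inr ⟨h2, hS.xout c w v (hx w v hv)⟩

open Classical in
theorem bcnt (hBxo : BxoStmt) : BcntStmt := by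
  intro V C J _ _ _ _ E S b de r h Lam lam kap kp Mb sg ub lab hS hbx hbst hb hde hr hr8 hout w
  obtain ⟨hxo0, hxox, hxorow⟩ := hBxo V C b de Lam h kap hb hde
  have hR : ∀ c, rs (sg c) w = 0 ∨ (rs (sg c) w = 1 ∧ S.hole c w) := fun c =>
    rs01 hS (hout.sg01 c) (fun u v huv => by
      have := hout.sgx c u v huv
      rwa [hbx] at this) (hout.sgrow c) w
  have e1 : (({c | S.hole c w ∧ rs (sg c) w = 0} : Set C).ncard : ℝ)
      = ∑ c, (if S.hole c w ∧ rs (sg c) w = 0 then (1 : ℝ) else 0) := by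
    rw [Finset.sum_boole, Set.ncard_eq_toFinset_card', Set.toFinset_ofPred]
  have e2 : (({c | S.hole c w} : Set C).ncard : ℝ) = ∑ c, (if S.hole c w then (1 : ℝ) else 0) := by
    rw [Finset.sum_boole, Set.ncard_eq_toFinset_card', Set.toFinset_ofPred]
  set Hn : ℝ := (({c | S.hole c w} : Set C).ncard : ℝ) with hHn
  have hHh : Hn ≤ h := hS.hcnt w
  have hH0 : 0 ≤ Hn := Nat.cast_nonneg _
  have e3 : ∑ c, (if S.hole c w ∧ rs (sg c) w = 0 then (1 : ℝ) else 0)
      = ∑ c, (if S.hole c w then (1 : ℝ) else 0) - ∑ c, rs (sg c) w := by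
    rw [← Finset.sum_sub_distrib]
    refine Finset.sum_congr rfl fun c _ => ?_
    rcases hR c with h1 | ⟨h1, h2⟩
    · by_cases h3 : S.hole c w
      · simp [h1, h3]
      · simp [h1, h3]
    · simp [h1, h2]
  have e4 : Hn * (1 - 2 * r - de) ≤ ∑ c, rs (b.xo c) w := by
    rw [e2, Finset.sum_mul]
    refine Finset.sum_le_sum fun c _ => ?_
    by_cases h3 : S.hole c w
    · rw [if_pos h3, one_mul]
      have h4 := hS.rowH c w h3
      have h5 := hxorow c w
      rw [hbx] at h5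
      linarith
    · rw [if_neg h3, zero_mul]
      exact rs_nonneg (hxo0 c) w
  have e5 := abs_le.1 (hout.o7 w)
  have hth := hb.th0
  have hth1 := hb.th1
  rw [e1, e3, ← e2]
  have e6 : b.th * (Hn * (1 - 2 * r - de)) ≤ b.th * ∑ c, rs (b.xo c) w :=
    mul_le_mul_of_nonneg_left e4 hth.le
  have e7 : Hn * (1 - b.th + b.th * (2 * r + de)) ≤ h * (1 - b.th + b.th * (2 * r + de)) := by
    refine mul_le_mul_of_nonneg_right hHh ?_
    have : 0 ≤ b.th * (2 * r + de) := by positivity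
    linarith
  nlinarith [e5.1, e6, e7]

end Pool.Agent.NIB.H3
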