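import Pool.Agent.Helper82_NIB.Stmts

/-!
Squad NIB (MP_0a041d_co), module BDOK: the data of the correction theorem satisfy its hypotheses.
-/

set_option autoImplicit false
set_option linter.unusedSectionVars false

open Finset Matrix

namespace Pool.Agent.NIB.H3

theorem bdok (hBxo : BxoStmt) (hSom : SomStmt) (hAk : AkStmt) : BdokStmt := by
  intro V C _ _ _ _ E S b P kap np nC lam' h gh sg ub c hS hP hbx hbst hbth hb hgh h01 hub hsgx hrow
    hO4 hO5 hO6
  obtain ⟨hxo0, hxox, hxorow⟩ := hBxo V C b P.de P.Lam h kap hb hP.de0.le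
  have hth := hP.th0
  have hth1 := hP.th1
  have hde := hP.de0
  have hlam : 0 < P.lam := by linarith [hP.lam1]
  have hta : (1 : ℝ) ≤ P.ta := by exact_mod_cast hP.ta1
  have hta0 : (0 : ℝ) ≤ P.ta := by linarith
  have hlam' : 0 < lam' := by linarith [hP.lam'1]
  have hnp : (0 : ℝ) < np := by linarith [hP.np1]
  have heps : 0 ≤ P.eps := by
    rw [hP.eps]
    positivity
  have hLam : 0 ≤ P.Lam := by
    have h1 : 0 ≤ h * P.de := mul_nonneg (by linarith [hP.h1]) hde.le
    linarith [hP.hLam]
  obtain ⟨k1, k2, k3, k4, k5⟩ := hAk V P (S.x c) (b.xo c) sg gh (np * P.ta) (hS.x0 c) (hS.xle c)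
    (hS.row c) hde.le heps hth.le hlam.le hP.ta1 hP.k4 hgh hO4
  have hPhi : 0 ≤ P.Phi := by
    unfold Prm.Phi
    positivity
  have hB4 : 0 ≤ P.B4 := by
    unfold Prm.B4
    positivity
  exact {
    th0 := hth
    th1 := hth1
    de0 := hde.le
    r0 := hP.r0
    r1 := hP.r1
    eps0 := heps
    eps1 := hP.eps1
    B10 := by
      show 0 ≤ P.B1
      unfold Prm.B1
      positivity
    Phi0 := hPhi
    el0 := by
      show 0 ≤ P.el
      unfold Prm.el
      positivity
    kb0 := by
      show 0 ≤ P.kb
      unfold Prm.kb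
      positivity
    B40 := hB4
    B50 := by
      show 0 ≤ P.B5
      unfold Prm.B5
      positivity
    B60 := by
      show 0 ≤ P.B6
      unfold Prm.B6
      positivity
    obar0 := by
      show 0 ≤ P.obar
      unfold Prm.obar
      positivity
    ta1 := hP.ta1
    phib1 := hP.phib1
    b1th := hP.b1th
    B4th := hP.B4th
    x0 := hS.x0 c
    xle := hS.xle c
    row := hS.row c
    rowH := hS.rowH c
    supp := by
      intro w w' hw
      rcases w with ⟨u, _ | _⟩ <;> rcases w' with ⟨v, _ | _⟩
      · exact absurd (mat_ff (S.x c) u v) hw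
      · exact hS.xinn c v u hw
      · exact hS.xout c u v hw
      · exact absurd (mat_tt (S.x c) u v) hw
    xo0 := hxo0 c
    xox := by
      intro u v
      have h1 := hxox c u v
      rw [hbx] at h1
      exact h1
    xorow := by
      intro w
      have h1 := hxorow c w
      rw [hbx] at h1
      exact h1
    sg01 := h01
    sgx := hsgx
    sgrow := hrow
    ub01 := hub
    om2 := fun u v => by
      show 1 / 2 ≤ b.om c u v
      have := (hSom V C b P.de P.Lam h kap hb c u v).2.1
      linarith
    om1 := fun u v => (hSom V C b P.de P.Lam h kap hb c u v).1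
    omo := fun u v => by
      show 1 - b.om c u v ≤ P.obar
      have := (hSom V C b P.de P.Lam h kap hb c u v).2.2
      rw [hbth] at this
      exact this
    gh0 := hgh.gh0
    gh1 := hgh.gh1
    gh2 := hgh.gh2
    k1 := k1
    k2 := k2
    k3 := k3
    k4 := k4
    k5 := k5
    k6 := hO5
    k7 := hO6 }

end Pool.Agent.NIB.H3
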